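import Pool.Agent.Helper27.NB.Defs
import Pool.Agent.Helper70.NF.CardFits

/-!
# The number of possible announcements, for symbols
-/

set_option autoImplicit false

namespace Pool.Agent.Helper70.NB

open Pool.Agent.Helper19.NF (Label Idx Fib)
open Pool.Agent.Helper27.NB
open Pool.Agent.Helper70.NF (Two Three one eq_one card_fib card_idx card_three)

variable {n m : ℕ} [NeZero m]

/-- B9: the sum over all labels. -/
theorem sum_wt (K K' x : ℝ) : ∑ L : Fin (n - 1) → Label n m, ∏ a, wt K K' x (L a) =
    (4 * m ^ 2 * K / x + 2 * m ^ 2 * n * K' ^ m) ^ (n - 1) := by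
  rw [← Fintype.sum_pow]
  congr 1
  rw [Fintype.sum_prod_type]
  simp only [wt, Fintype.sum_sum_type, Sum.isLeft_inl, Sum.isLeft_inr, if_true, Bool.false_eq_true, if_false,
    Finset.sum_const, Finset.card_univ, Fintype.card_prod, Fintype.card_bool, ZMod.card, Fintype.card_fin, nsmul_eq_mul]
  push_cast
  ring

/-- The announced numbers of type 2, as a strictly monotone function. -/
def seq (L : Fin (n - 1) → Label n m) (num : Idx L → ℕ) (a : Two L) : ℕᵒᵈ := OrderDual.toDual (num (one L a))

omit [NeZero m] in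
theorem seq_strictMono (L : Fin (n - 1) → Label n m) (T T' : ℕ) (num : Idx L → ℕ) (h : Fits L T T' num) :
    StrictMono (seq L num) := by
  intro a b hab
  exact h.2 (one L a) (one L b) a.2 b.2 hab

omit [NeZero m] in
theorem lt_left (L : Fin (n - 1) → Label n m) (T T' : ℕ) (num : Idx L → ℕ) (h : Fits L T T' num) (a : Two L) :
    num (one L a) < T := by
  have h1 := h.1 (one L a)
  have h2 : (L (one L a).1).2.isLeft = true := a.2
  rw [if_pos h2] at h1
  exact h1

omit [NeZero m] in
theorem lt_right (L : Fin (n - 1) → Label n m) (T T' : ℕ) (num : Idx L → ℕ) (h : Fits L T T' num) (y : Three L) :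
    num y.1 < T' := by
  have h1 := h.1 y.1
  rw [if_neg y.2] at h1
  exact h1

/-- The code of a sequence of announcements. -/
def code (L : Fin (n - 1) → Label n m) (T T' : ℕ) (num : {num : Idx L → ℕ // Fits L T T' num}) :
    (Finset.powersetCard (Fintype.card (Two L)) (Finset.range T)) × (Three L → Fin T') :=
  (⟨Finset.univ.image fun a => num.1 (one L a), by
    rw [Finset.mem_powersetCard]
    refine ⟨fun z hz => ?_, ?_⟩
    · obtain ⟨a, -, rfl⟩ := Finset.mem_image.1 hz
      exact Finset.mem_range.2 (lt_left L T T' num.1 num.2 a)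
    · exact Finset.card_image_of_injective _ (seq_strictMono L T T' num.1 num.2).injective⟩,
   fun y => ⟨num.1 y.1, lt_right L T T' num.1 num.2 y⟩)

omit [NeZero m] in
theorem code_injective (L : Fin (n - 1) → Label n m) (T T' : ℕ) : Function.Injective (code L T T') := by
  intro num num' h
  have h1 : (Finset.univ.image fun a => num.1 (one L a)) = Finset.univ.image fun a => num'.1 (one L a) :=
    congrArg (fun z => (z.1 : Finset ℕ)) h
  have h2 : ∀ y : Three L, num.1 y.1 = num'.1 y.1 := fun y => congrArg (fun z => ((z.2 y : Fin T') : ℕ)) h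
  have h3 : seq L num.1 = seq L num'.1 := by
    rw [← StrictMono.range_inj (seq_strictMono L T T' num.1 num.2) (seq_strictMono L T T' num'.1 num'.2)]
    ext z
    have := Finset.ext_iff.1 h1 (OrderDual.ofDual z)
    simp only [Finset.mem_image, Finset.mem_univ, true_and] at this
    simp only [Set.mem_range]
    exact this
  apply Subtype.ext
  funext y
  by_cases hy : (L y.1).2.isLeft
  · rw [eq_one L y hy]
    exact congrFun h3 ⟨y.1, hy⟩
  · exact h2 ⟨y, hy⟩

/-- B8: the number of possible announcements, divided by `k` to the number of the secrets. -/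
theorem card_fits (L : Fin (n - 1) → Label n m) (T T' k : ℕ) (hk : 0 < k) (x : ℝ) (hx : 0 < x) :
    (Nat.card {num : Idx L → ℕ // Fits L T T' num} : ℝ) ≤
      Real.exp x * (∏ a, wt ((T : ℝ) / k) ((T' : ℝ) / k) x (L a)) * (k : ℝ) ^ Fintype.card (Idx L) := by
  have h1 : Nat.card {num : Idx L → ℕ // Fits L T T' num} ≤
      T.choose (Fintype.card (Two L)) * T' ^ Fintype.card (Three L) := by
    refine (Nat.card_le_card_of_injective _ (code_injective L T T')).trans (le_of_eq ?_)
    rw [Nat.card_prod, Nat.card_eq_fintype_card, Fintype.card_coe, Finset.card_powersetCard, Finset.card_range,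
      Nat.card_fun, Nat.card_eq_fintype_card, Nat.card_eq_fintype_card, Fintype.card_fin]
  have hk' : (0 : ℝ) < k := Nat.cast_pos.2 hk
  set a2 := Fintype.card (Two L) with ha2
  set a3 := Fintype.card {a : Fin (n - 1) // ¬ (L a).2.isLeft} with ha3
  have h2 : ∏ a, wt ((T : ℝ) / k) ((T' : ℝ) / k) x (L a) = ((T : ℝ) / k / x) ^ a2 * (((T' : ℝ) / k) ^ m) ^ a3 := by
    simp only [wt]
    rw [Finset.prod_ite, Finset.prod_const, Finset.prod_const, ha2, ha3, Fintype.card_subtype, Fintype.card_subtype]
  have h3 : Fintype.card (Idx L) = a2 + m * a3 := card_idx L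
  have h4 : Fintype.card (Three L) = m * a3 := by
    have := card_three L
    omega
  have h5 : x ^ a2 / a2.factorial ≤ Real.exp x := by
    have := Real.sum_le_exp_of_nonneg hx.le (a2 + 1)
    refine le_trans ?_ this
    exact Finset.single_le_sum (f := fun i => x ^ i / (i.factorial : ℝ)) (fun i _ => by positivity)
      (Finset.self_mem_range_succ a2)
  calc (Nat.card {num : Idx L → ℕ // Fits L T T' num} : ℝ)
      ≤ ((T.choose a2 * T' ^ (m * a3) : ℕ) : ℝ) := by
        rw [← h4]
        exact_mod_cast h1
    _ ≤ ((T : ℝ) ^ a2 / a2.factorial) * (T' : ℝ) ^ (m * a3) := by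
        push_cast
        exact mul_le_mul_of_nonneg_right (Nat.choose_le_pow_div _ _) (by positivity)
    _ = (x ^ a2 / a2.factorial) * ((T : ℝ) / k / x) ^ a2 * (((T' : ℝ) / k) ^ m) ^ a3 * (k : ℝ) ^ (a2 + m * a3) := by
        rw [← pow_mul, pow_add, div_pow, div_pow, div_pow]
        field_simp
    _ ≤ Real.exp x * (∏ a, wt ((T : ℝ) / k) ((T' : ℝ) / k) x (L a)) * (k : ℝ) ^ Fintype.card (Idx L) := by
        rw [h2, h3, ← mul_assoc]
        refine mul_le_mul_of_nonneg_right (mul_le_mul_of_nonneg_right (mul_le_mul_of_nonneg_right h5 ?_) ?_) ?_ <;>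
        positivity

end Pool.Agent.Helper70.NB
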