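import Pool.Agent.Helper70.NF.Up

/-!
# The recursive program uses one component of each queried cell
-/

set_option autoImplicit false

namespace Pool.Agent.Helper70.NB

open Pool.Agent.Helper19.NF
open Pool.Agent.Helper70.NF

/-- A transition system with finitely many relevant states which uses one component of each queried cell. -/
theorem exists_prog_one {C D B Z Q : Type} (K : Set Q) [Finite K] (act : Q → (C × ((D → B) → Q)) ⊕ Z)
    (hK : ∀ q ∈ K, ∀ c f, act q = Sum.inl (c, f) → ∀ w, f w ∈ K)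
    (h1 : ∀ q ∈ K, ∀ c f, act q = Sum.inl (c, f) → ∃ (d : D) (f' : B → Q), ∀ w, f w = f' (w d)) (q0 : Q)
    (h0 : q0 ∈ K) :
    ∃ P : Prog C (D → B) Z 1 (Nat.card K),
      (∀ s c f, P.act s = Sum.inl (c, f) → ∃ (d : D) (f' : B → Fin (Nat.card K)), ∀ w, f w = f' (w d)) ∧
      ∀ I : C → D → B,
      (∀ z, (∃ j, act ((stp act I)^[j] q0) = Sum.inr z) → P.Outputs I (P.start 0) z) ∧
      ∀ c, P.Asks I (P.start 0) c → ∃ j f, act ((stp act I)^[j] q0) = Sum.inl (c, f) := by
  classical
  set e : K ≃ Fin (Nat.card K) := Finite.equivFin K with he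
  set back : Q → Fin (Nat.card K) := fun q => if h : q ∈ K then e ⟨q, h⟩ else e ⟨q0, h0⟩ with hback
  have hb : ∀ q (h : q ∈ K), back q = e ⟨q, h⟩ := fun q h => by rw [hback]; exact dif_pos h
  set P : Prog C (D → B) Z 1 (Nat.card K) :=
    ⟨fun _ => back q0, fun s => Sum.map (fun t => (t.1, fun w => back (t.2 w))) id (act (e.symm s).1)⟩ with hP
  have hact : ∀ q (h : q ∈ K), P.act (back q) = Sum.map (fun t => (t.1, fun w => back (t.2 w))) id (act q) := by
    intro q h
    rw [hb q h, hP]
    simp only [Equiv.symm_apply_apply]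
  have hstepK : ∀ (I : C → D → B) q, q ∈ K → stp act I q ∈ K := by
    intro I q h
    unfold stp
    rcases ha : act q with ⟨c, f⟩ | z
    · exact hK q h c f ha (I c)
    · exact h
  have hstep : ∀ (I : C → D → B) q, q ∈ K → P.step I (back q) = back (stp act I q) := by
    intro I q h
    unfold Prog.step stp
    rw [hact q h]
    rcases act q with ⟨c, f⟩ | z <;> rfl
  refine ⟨P, fun s c f hs => ?_, fun I => ?_⟩
  · have hs' : Sum.map (fun t : C × ((D → B) → Q) => (t.1, fun w => back (t.2 w))) id (act (e.symm s).1) =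
        Sum.inl (c, f) := hs
    rcases ha : act (e.symm s).1 with ⟨c', f'⟩ | z
    · rw [ha] at hs'
      simp only [Sum.map_inl, Sum.inl.injEq, Prod.mk.injEq] at hs'
      obtain ⟨d, f'', hf⟩ := h1 _ (e.symm s).2 c' f' ha
      refine ⟨d, fun x => back (f'' x), fun w => ?_⟩
      rw [← hs'.2]
      show back (f' w) = back (f'' (w d))
      rw [hf w]
    · rw [ha] at hs'
      simp at hs'
  have hit : ∀ j, (stp act I)^[j] q0 ∈ K ∧ (P.step I)^[j] (P.start 0) = back ((stp act I)^[j] q0) := by
    intro j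
    induction j with
    | zero => exact ⟨h0, rfl⟩
    | succ j ih =>
      rw [Function.iterate_succ_apply', Function.iterate_succ_apply', ih.2]
      exact ⟨hstepK I _ ih.1, hstep I _ ih.1⟩
  constructor
  · rintro z ⟨j, hj⟩
    refine ⟨j, ?_⟩
    rw [(hit j).2, hact _ (hit j).1, hj]
    rfl
  · rintro c ⟨j, f, hj⟩
    rw [(hit j).2, hact _ (hit j).1] at hj
    rcases ha : act ((stp act I)^[j] q0) with ⟨c', f'⟩ | z
    · rw [ha] at hj
      simp only [Sum.map_inl, Sum.inl.injEq, Prod.mk.injEq] at hj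
      exact ⟨j, f', by rw [ha, hj.1]⟩
    · rw [ha] at hj
      simp at hj

section general

variable {U D B : Type} [Fintype D] [Nonempty D] [AddCommGroup B]

/-- The recursive program, which uses one component of each queried cell. -/
theorem upper_one [Fintype U] [Fintype B] (g : D → Equiv.Perm U) (x0 : U → B) (n : ℕ) (p0 : U) :
    ∃ P : Prog B (D → B) B 1 (Nat.card (Kst U D B n)),
      (∀ s c f, P.act s = Sum.inl (c, f) → ∃ (d : D) (f' : B → Fin (Nat.card (Kst U D B n))), ∀ w, f w = f' (w d)) ∧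
      ∀ I : B → D → B, P.Outputs I (P.start 0) (val g x0 I n p0) ∧
      ∀ b, P.Asks I (P.start 0) b → ∃ i < n, ∃ u, b = val g x0 I i u := by
  obtain ⟨P, hP1, hP⟩ := exists_prog_one (Kst U D B n) (sys g x0 n) (by
    rintro ⟨F, v⟩ hF c f hf w
    cases F with
    | nil => exact absurd hf (by simp [sys])
    | cons a F =>
      have h2 : nxt g x0 n a F = f := congrArg Prod.snd (Sum.inl.inj hf)
      rw [← h2]
      exact nxt_length g x0 n a F w (by simpa [Kst] using hF)) (by
    rintro ⟨F, v⟩ hF c f hf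
    cases F with
    | nil => exact absurd hf (by simp [sys])
    | cons a F =>
      have h2 : nxt g x0 n a F = f := congrArg Prod.snd (Sum.inl.inj hf)
      refine ⟨en D a.2.1, fun x => if h : a.2.1.val + 1 < Fintype.card D then
        desc g x0 (n - (F.length + 1)) ((a.1, ⟨a.2.1.val + 1, h⟩, a.2.2 + x) :: F)
          (g (en D ⟨a.2.1.val + 1, h⟩) a.1)
        else (F, a.2.2 + x), fun w => ?_⟩
      rw [← h2]
      rfl) (desc g x0 n [] p0)
    (show (desc g x0 n [] p0).1.length ≤ n by rw [desc_length]; simp)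
  refine ⟨P, hP1, fun I => ⟨(hP I).1 _ ?_, fun b hb => ?_⟩⟩
  · obtain ⟨j, v, hj⟩ := reach g x0 n I n [] p0 (by simp)
    refine ⟨j, ?_⟩
    have h1 := inv_iter g x0 n p0 I j
    rw [hj] at h1 ⊢
    have h2 : v = val g x0 I n p0 := h1.2.2
    rw [h2]
    rfl
  · obtain ⟨j, f, hj⟩ := (hP I).2 b hb
    have h1 := inv_iter g x0 n p0 I j
    generalize (stp (sys g x0 n) I)^[j] (desc g x0 n [] p0) = q at h1 hj
    obtain ⟨F, v⟩ := q
    cases F with
    | nil => exact absurd hj (by simp [sys])
    | cons a F =>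
      have h2 : v = b := congrArg Prod.fst (Sum.inl.inj hj)
      have h3 : F.length + 1 ≤ n := h1.1
      exact ⟨n - (F.length + 1), by omega, _, by rw [← h2]; exact h1.2.2⟩

end general

/-- The recursive program for the ring: `(2 |B|) ^ (4 n)` states, one component of each queried cell. -/
theorem upper_ring_one {n m : ℕ} [NeZero m] {B : Type} [AddCommGroup B] [Fintype B] (hn : 1 ≤ n) (x0 : Pos n m → B)
    (hB : n * (n + 1) * m ≤ Fintype.card B) :
    ∃ S, S ≤ (2 * Fintype.card B) ^ (4 * n) ∧ ∃ P : Prog B (Dir m → B) B 1 S,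
      (∀ s c f, P.act s = Sum.inl (c, f) → ∃ (d : Dir m) (f' : B → Fin S), ∀ w, f w = f' (w d)) ∧
      ∀ I : B → Dir m → B,
      P.Outputs I (P.start 0) (out x0 I) ∧ Nat.card {b // P.Asks I (P.start 0) b} ≤ n * (n + 1) * m := by
  obtain ⟨P, hP1, hP2⟩ := upper_one (ring n m) x0 n (0, 0)
  refine ⟨_, ?_, P, hP1, fun I => ⟨(hP2 I).1, ?_⟩⟩
  · refine (card_Kst n).trans ?_
    set b := Fintype.card B with hb
    have hm : 1 ≤ m := Nat.one_le_iff_ne_zero.2 (NeZero.ne m)
    have h1 : Fintype.card (Pos n m) = (n + 1) * m := by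
      rw [Fintype.card_prod, ZMod.card, ZMod.card]
    have h2 : Fintype.card (Dir m) = 2 * m := by
      rw [Fintype.card_prod, ZMod.card, Fintype.card_bool]
    rw [h1, h2]
    have h3 : (n + 1) * m ≤ b := le_trans (by nlinarith [Nat.mul_le_mul_right ((n + 1) * m) hn]) hB
    have h4 : 2 * m ≤ b := le_trans (by nlinarith) h3
    have h5 : 1 ≤ b := le_trans (by nlinarith) h4
    have h6 : (n + 1) * m * (2 * m * b) + 1 ≤ (2 * b) ^ 3 := by
      have : (n + 1) * m * (2 * m * b) ≤ b * (b * b) := Nat.mul_le_mul h3 (Nat.mul_le_mul h4 le_rfl)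
      have h7 : 1 ≤ b * (b * b) := Nat.mul_pos h5 (Nat.mul_pos h5 h5)
      calc (n + 1) * m * (2 * m * b) + 1 ≤ b * (b * b) + b * (b * b) := Nat.add_le_add this h7
        _ ≤ (2 * b) ^ 3 := by ring_nf; omega
    calc ((n + 1) * m * (2 * m * b) + 1) ^ n * b ≤ ((2 * b) ^ 3) ^ n * (2 * b) ^ n := by
          refine Nat.mul_le_mul (Nat.pow_le_pow_left h6 n) ?_
          calc b ≤ 2 * b := by omega
            _ = (2 * b) ^ 1 := (pow_one _).symm
            _ ≤ (2 * b) ^ n := Nat.pow_le_pow_right (by omega) hn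
      _ = (2 * b) ^ (4 * n) := by
          rw [← pow_mul, ← pow_add]
          congr 1
          ring
  · have h := (hP2 I).2
    have hsub : {b | P.Asks I (P.start 0) b} ⊆
        Set.range fun y : Fin n × Pos n m => val (ring n m) x0 I y.1.val y.2 := by
      intro b hb
      obtain ⟨i, hi, u, hu⟩ := h b hb
      exact ⟨(⟨i, hi⟩, u), hu.symm⟩
    calc Nat.card {b // P.Asks I (P.start 0) b} = Nat.card {b | P.Asks I (P.start 0) b} := rfl
      _ ≤ Nat.card (Set.range fun y : Fin n × Pos n m => val (ring n m) x0 I y.1.val y.2) :=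
          Nat.card_mono (Set.finite_range _) hsub
      _ ≤ Nat.card (Fin n × Pos n m) := Finite.card_range_le _
      _ = n * (n + 1) * m := by
          rw [Nat.card_eq_fintype_card, Fintype.card_prod, Fintype.card_prod, ZMod.card, ZMod.card, Fintype.card_fin]
          ring

end Pool.Agent.Helper70.NB
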