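import Pool.Agent.Helper27.NB.Defs
import Pool.Agent.Helper70.NB.Up

/-!
# Programs over symbols from programs over cells
-/

set_option autoImplicit false

namespace Pool.Agent.Helper70.NB

open Pool.Agent.Helper19.NF
open Pool.Agent.Helper70.NF

section

variable {B Λ F Z D : Type} [AddCommGroup B] [Fintype Λ] {S : ℕ}

/-- An enumeration of the places. -/
noncomputable def pl (Λ : Type) [Fintype Λ] : Fin (Fintype.card Λ) ≃ Λ := (Fintype.equivFin Λ).symm

/-- A state of the new program: a state of the old one, the number of the next place, a partial sum. -/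
abbrev St (S : ℕ) (Λ B : Type) [Fintype Λ] : Type := Fin S × Fin (Fintype.card Λ) × B

/-- What happens after the symbol `y` was read. -/
noncomputable def wn (dd : Fin S → D) (nx : Fin S → B → Fin S) (α : D → Λ → F → B) (q : St S Λ B) (y : F) :
    St S Λ B :=
  if h : q.2.1.val + 1 < Fintype.card Λ then (q.1, ⟨q.2.1.val + 1, h⟩, q.2.2 + α (dd q.1) (pl Λ q.2.1) y)
  else (nx q.1 (q.2.2 + α (dd q.1) (pl Λ q.2.1) y), ⟨0, lt_of_le_of_lt (Nat.zero_le _) q.2.1.2⟩, 0)

/-- The new transition system. -/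
noncomputable def wa (P : Prog B (D → B) Z 1 S) (dd : Fin S → D) (nx : Fin S → B → Fin S) (α : D → Λ → F → B)
    (q : St S Λ B) : ((B × Λ) × (F → St S Λ B)) ⊕ Z :=
  (P.act q.1).elim (fun t => Sum.inl ((t.1, pl Λ q.2.1), wn dd nx α q)) Sum.inr

/-- The words of the cells. -/
def wds (α : D → Λ → F → B) (J : B × Λ → F) (b : B) (c : D) : B := ∑ l, α c l (J (b, l))

variable {P : Prog B (D → B) Z 1 S} {dd : Fin S → D} {nx : Fin S → B → Fin S} {α : D → Λ → F → B} {J : B × Λ → F}

/-- The partial sum. -/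
noncomputable def ps (α : D → Λ → F → B) (J : B × Λ → F) (d : D) (b : B) (l : ℕ) : B :=
  ∑ k ∈ Finset.univ.filter (fun k : Fin (Fintype.card Λ) => k.val < l), α d (pl Λ k) (J (b, pl Λ k))

theorem ps_zero (d : D) (b : B) : ps α J d b 0 = 0 := by
  unfold ps
  rw [Finset.filter_false_of_mem, Finset.sum_empty]
  intro k _ hk
  omega

theorem ps_succ (d : D) (b : B) (l : Fin (Fintype.card Λ)) :
    ps α J d b (l.val + 1) = ps α J d b l.val + α d (pl Λ l) (J (b, pl Λ l)) := by
  unfold ps
  have : (Finset.univ.filter (fun k : Fin (Fintype.card Λ) => k.val < l.val + 1)) =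
      insert l (Finset.univ.filter (fun k => k.val < l.val)) := by
    ext k
    simp only [Finset.mem_filter, Finset.mem_univ, true_and, Finset.mem_insert, Fin.ext_iff]
    omega
  rw [this, Finset.sum_insert (by simp), add_comm]

theorem ps_all (d : D) (b : B) : ps α J d b (Fintype.card Λ) = wds α J b d := by
  unfold ps wds
  rw [Finset.filter_true_of_mem (fun k _ => k.2)]
  exact Equiv.sum_comp (pl Λ) fun l => α d l (J (b, l))

/-- The invariant. -/
def WInv (P : Prog B (D → B) Z 1 S) (dd : Fin S → D) (α : D → Λ → F → B) (J : B × Λ → F) (q : St S Λ B) : Prop :=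
  (∃ j, (P.step (wds α J))^[j] (P.start 0) = q.1) ∧
    ∀ b f, P.act q.1 = Sum.inl (b, f) → q.2.2 = ps α J (dd q.1) b q.2.1.val

theorem winv_step (hd : ∀ s b f, P.act s = Sum.inl (b, f) → ∀ w, f w = nx s (w (dd s))) (q : St S Λ B)
    (hq : WInv P dd α J q) : WInv P dd α J (stp (wa P dd nx α) J q) := by
  obtain ⟨⟨j, hj⟩, h2⟩ := hq
  rcases ha : P.act q.1 with ⟨b, f⟩ | z
  · have h3 := h2 b f ha
    have h4 : stp (wa P dd nx α) J q = wn dd nx α q (J (b, pl Λ q.2.1)) := by
      unfold stp wa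
      rw [ha]
      rfl
    rw [h4]
    unfold wn
    split_ifs with h
    · refine ⟨⟨j, hj⟩, fun b' f' hb' => ?_⟩
      have h5 : P.act q.1 = Sum.inl (b', f') := hb'
      rw [ha] at h5
      have h6 : b = b' := congrArg Prod.fst (Sum.inl.inj h5)
      subst h6
      show q.2.2 + α (dd q.1) (pl Λ q.2.1) (J (b, pl Λ q.2.1)) = ps α J (dd q.1) b (q.2.1.val + 1)
      rw [ps_succ, h3]
    · have h5 : q.2.1.val + 1 = Fintype.card Λ := by have := q.2.1.2; omega
      have h6 : q.2.2 + α (dd q.1) (pl Λ q.2.1) (J (b, pl Λ q.2.1)) = wds α J b (dd q.1) := by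
        rw [h3, ← ps_succ, h5, ps_all]
      rw [h6]
      refine ⟨⟨j + 1, ?_⟩, fun b' f' hb' => ?_⟩
      · rw [Function.iterate_succ_apply', hj]
        show P.step (wds α J) q.1 = nx q.1 (wds α J b (dd q.1))
        unfold Prog.step
        rw [ha]
        exact hd q.1 b f ha (wds α J b)
      · show (0 : B) = ps α J _ b' 0
        rw [ps_zero]
  · have h4 : stp (wa P dd nx α) J q = q := by
      unfold stp wa
      rw [ha]
      rfl
    rw [h4]
    exact ⟨⟨j, hj⟩, h2⟩

/-- The new program reaches the state after one step of the old one. -/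
theorem wreach_step [Nonempty Λ] (hd : ∀ s b f, P.act s = Sum.inl (b, f) → ∀ w, f w = nx s (w (dd s))) (s : Fin S) :
    ∃ i, (stp (wa P dd nx α) J)^[i] (s, ⟨0, Fintype.card_pos⟩, 0) =
      (P.step (wds α J) s, ⟨0, Fintype.card_pos⟩, 0) := by
  rcases ha : P.act s with ⟨b, f⟩ | z
  · have key : ∀ (t : ℕ) (l : Fin (Fintype.card Λ)), l.val + t + 1 = Fintype.card Λ →
        ∃ i, (stp (wa P dd nx α) J)^[i] (s, l, ps α J (dd s) b l.val) =
          (P.step (wds α J) s, ⟨0, Fintype.card_pos⟩, 0) := by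
      intro t
      induction t with
      | zero =>
        intro l hl
        refine ⟨1, ?_⟩
        show stp (wa P dd nx α) J (s, l, ps α J (dd s) b l.val) = _
        have h4 : stp (wa P dd nx α) J (s, l, ps α J (dd s) b l.val) =
            wn dd nx α (s, l, ps α J (dd s) b l.val) (J (b, pl Λ l)) := by
          unfold stp wa
          rw [ha]
          rfl
        rw [h4]
        unfold wn
        rw [dif_neg (by simp only; omega)]
        simp only
        rw [← ps_succ, show l.val + 1 = Fintype.card Λ by omega, ps_all]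
        unfold Prog.step
        rw [ha]
        simp only [Sum.elim_inl]
        rw [hd s b f ha]
      | succ t ih =>
        intro l hl
        obtain ⟨i, hi⟩ := ih ⟨l.val + 1, by omega⟩ (by simp only; omega)
        refine ⟨i + 1, ?_⟩
        rw [Function.iterate_succ_apply, ← hi]
        congr 1
        have h4 : stp (wa P dd nx α) J (s, l, ps α J (dd s) b l.val) =
            wn dd nx α (s, l, ps α J (dd s) b l.val) (J (b, pl Λ l)) := by
          unfold stp wa
          rw [ha]
          rfl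
        rw [h4]
        unfold wn
        rw [dif_pos (show l.val + 1 < Fintype.card Λ by omega)]
        simp only
        rw [← ps_succ]
    obtain ⟨i, hi⟩ := key (Fintype.card Λ - 1) ⟨0, Fintype.card_pos⟩ (by
      have : 0 < Fintype.card Λ := Fintype.card_pos
      simp only
      omega)
    refine ⟨i, ?_⟩
    rw [← hi]
    simp only [ps_zero]
  · refine ⟨0, ?_⟩
    show (s, _, _) = _
    unfold Prog.step
    rw [ha]
    rfl

theorem wreach [Nonempty Λ] (hd : ∀ s b f, P.act s = Sum.inl (b, f) → ∀ w, f w = nx s (w (dd s))) (j : ℕ) :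
    ∃ i, (stp (wa P dd nx α) J)^[i] (P.start 0, ⟨0, Fintype.card_pos⟩, 0) =
      ((P.step (wds α J))^[j] (P.start 0), ⟨0, Fintype.card_pos⟩, 0) := by
  induction j with
  | zero => exact ⟨0, rfl⟩
  | succ j ih =>
    obtain ⟨i, hi⟩ := ih
    obtain ⟨i', hi'⟩ := wreach_step (J := J) (α := α) hd ((P.step (wds α J))^[j] (P.start 0))
    refine ⟨i' + i, ?_⟩
    rw [Function.iterate_add_apply, hi, hi', Function.iterate_succ_apply']

/-- A program over cells, which uses one component of each queried cell, gives a program over symbols. -/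
theorem wrap [Nonempty Λ] [Fintype B] [Nonempty D] (P : Prog B (D → B) Z 1 S)
    (h1 : ∀ s b f, P.act s = Sum.inl (b, f) → ∃ (d : D) (f' : B → Fin S), ∀ w, f w = f' (w d)) (α : D → Λ → F → B) :
    ∃ S' ≤ S * (Fintype.card Λ * Fintype.card B), ∃ P' : Prog (B × Λ) F Z 1 S', ∀ J : B × Λ → F,
      (∀ z, P.Outputs (wds α J) (P.start 0) z → P'.Outputs J (P'.start 0) z) ∧
      ∀ p, P'.Asks J (P'.start 0) p → P.Asks (wds α J) (P.start 0) p.1 := by
  have h2 : ∀ s, ∃ y : D × (B → Fin S), ∀ b f, P.act s = Sum.inl (b, f) → ∀ w, f w = y.2 (w y.1) := by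
    intro s
    rcases ha : P.act s with ⟨b, f⟩ | z
    · obtain ⟨d, f', hf⟩ := h1 s b f ha
      refine ⟨(d, f'), fun b' f'' h => ?_⟩
      have : f = f'' := congrArg Prod.snd (Sum.inl.inj h)
      rw [← this]
      exact hf
    · exact ⟨(Classical.arbitrary D, fun _ => s), fun b' f'' h => by simp at h⟩
  choose y hy using h2
  obtain ⟨P', hP'⟩ := exists_prog (Set.univ : Set (St S Λ B)) (wa P (fun s => (y s).1) (fun s => (y s).2) α)
    (fun _ _ _ _ _ _ => Set.mem_univ _) (P.start 0, ⟨0, Fintype.card_pos⟩, 0) (Set.mem_univ _)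
  refine ⟨_, ?_, P', fun J => ⟨fun z hz => ?_, fun p hp => ?_⟩⟩
  · rw [Nat.card_univ, Nat.card_eq_fintype_card, Fintype.card_prod, Fintype.card_prod, Fintype.card_fin,
      Fintype.card_fin]
  · obtain ⟨j, hj⟩ := hz
    refine (hP' J).1 z ?_
    obtain ⟨i, hi⟩ := wreach (P := P) (dd := fun s => (y s).1) (nx := fun s => (y s).2) (α := α) (J := J) hy j
    refine ⟨i, ?_⟩
    rw [hi]
    unfold wa
    rw [hj]
    rfl
  · obtain ⟨j, f, hj⟩ := (hP' J).2 p hp
    have hinv : WInv P (fun s => (y s).1) α J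
        ((stp (wa P (fun s => (y s).1) (fun s => (y s).2) α) J)^[j] (P.start 0, ⟨0, Fintype.card_pos⟩, 0)) := by
      clear hj
      induction j with
      | zero =>
        refine ⟨⟨0, rfl⟩, fun b f _ => ?_⟩
        show (0 : B) = ps α J _ b 0
        rw [ps_zero]
      | succ j ih =>
        rw [Function.iterate_succ_apply']
        exact winv_step hy _ ih
    generalize (stp (wa P (fun s => (y s).1) (fun s => (y s).2) α) J)^[j] (P.start 0, ⟨0, Fintype.card_pos⟩, 0) = q
      at hj hinv
    obtain ⟨⟨i, hi⟩, -⟩ := hinv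
    unfold wa at hj
    rcases ha : P.act q.1 with ⟨b, f'⟩ | z
    · rw [ha] at hj
      have h3 : (b, pl Λ q.2.1) = p := congrArg Prod.fst (Sum.inl.inj hj)
      refine ⟨i, f', ?_⟩
      rw [hi, ha, ← h3]
    · rw [ha] at hj
      simp at hj

end

/-- B15: the program without store. -/
theorem det_program {n m : ℕ} [NeZero m] {B Λ F : Type} [AddCommGroup B] [Fintype B] [Fintype Λ] [Nonempty Λ]
    (hn : 1 ≤ n) (x0 : Pos n m → B) (α : Dir m → Λ → F → B)
    (hB : n * (n + 1) * m ≤ Fintype.card B) (hΛ : Fintype.card Λ ≤ Fintype.card B) :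
    ∃ (S : ℕ) (P : Prog (B × Λ) F B 1 S), S ≤ (2 * Fintype.card B) ^ (4 * n + 2) ∧
      ∀ J : B × Λ → F, P.Outputs J (P.start 0) (out x0 fun b c => ∑ l, α c l (J (b, l))) ∧
        Nat.card {b // P.Asks J (P.start 0) b} ≤ n * (n + 1) * m * Fintype.card Λ := by
  obtain ⟨S, hS, P, hP1, hP2⟩ := upper_ring_one hn x0 hB
  obtain ⟨S', hS', P', hP'⟩ := wrap P hP1 α
  refine ⟨S', P', hS'.trans ?_, fun J => ⟨(hP' J).1 _ (hP2 (wds α J)).1, ?_⟩⟩
  · rw [pow_add, pow_two]
    refine Nat.mul_le_mul hS (Nat.mul_le_mul (hΛ.trans ?_) ?_) <;> omega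
  · have h1 : Nat.card {b // P'.Asks J (P'.start 0) b} ≤
        Nat.card ({b // P.Asks (wds α J) (P.start 0) b} × Λ) := by
      refine Nat.card_le_card_of_injective (fun p => (⟨p.1.1, (hP' J).2 p.1 p.2⟩, p.1.2)) ?_
      intro p p' h
      apply Subtype.ext
      apply Prod.ext
      · exact congrArg (fun y => y.1.1) h
      · exact congrArg (fun y => y.2) h
    rw [Nat.card_prod, Nat.card_eq_fintype_card (α := Λ)] at h1
    exact h1.trans (Nat.mul_le_mul_right _ (hP2 (wds α J)).2)

end Pool.Agent.Helper70.NB
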